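import Pool.Agent.TMX.Stmts2

/-! Squad TMX, row FB: tangent ball reaching a point of the core. -/

namespace Pool.Agent.TMX.H24

open Finset
open Pool.Agent.Helper51_Max (I IsMax)

theorem split_aux (f : ℕ → ℝ) (a b c : ℕ) (h1 : a ≤ b + 1) (h2 : b ≤ c) :
    ∑ i ∈ Icc a c, f i = ∑ i ∈ Icc a b, f i + ∑ i ∈ Ioc b c, f i := by
  rw [← Finset.sum_union]
  · refine Finset.sum_congr ?_ fun _ _ => rfl
    ext i
    simp only [mem_union, mem_Icc, mem_Ioc]
    omega
  · rw [Finset.disjoint_left]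
    intro i
    simp only [mem_Icc, mem_Ioc]
    omega

/-- row FB -/
theorem fb : FB := by
  intro N g M hM y z z' r v p G hv hC hp1 hp2
  obtain ⟨hyz, hzz, hrz, hrN, hy, hz, hCC, hopt, hMy, hMz⟩ := G
  have hB : I N z r = Icc (z - r) (z + r) := by
    show Icc (z - r) (min (z + r) N) = _
    rw [min_eq_left (by omega)]
  have hT : I N y (y + r - z) = Icc (z - r) (2 * y + r - z) := by
    show Icc (y - (y + r - z)) (min (y + (y + r - z)) N) = _
    rw [min_eq_left (by omega), show y - (y + r - z) = z - r by omega,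
      show y + (y + r - z) = 2 * y + r - z by omega]
  have hT' : I N z' (z + r - z') = Icc (2 * z' - (z + r)) (z + r) := by
    show Icc (z' - (z + r - z')) (min (z' + (z + r - z')) N) = _
    rw [min_eq_left (by omega), show z' - (z + r - z') = 2 * z' - (z + r) by omega,
      show z' + (z + r - z') = z + r by omega]
  have l1 := hM.le y (by omega) (y + r - z)
  have l2 := hM.le z' (by omega) (z + r - z')
  rw [hT, Nat.card_Icc] at l1
  rw [hT', Nat.card_Icc] at l2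
  rw [hB, Nat.card_Icc, split_aux g (z - r) (2 * y + r - z) (z + r) (by omega) (by omega)] at hopt
  rw [split_aux g (2 * z' - (z + r)) (2 * y + r - z) (z + r) (by omega) (by omega)] at l2
  obtain ⟨SR, hSR⟩ : ∃ SR : ℝ, SR = ∑ i ∈ Ioc (2 * y + r - z) (z + r), g i := ⟨_, rfl⟩
  obtain ⟨ST, hST⟩ : ∃ ST : ℝ, ST = ∑ i ∈ Icc (z - r) (2 * y + r - z), g i := ⟨_, rfl⟩
  obtain ⟨SC, hSC⟩ : ∃ SC : ℝ, SC = ∑ i ∈ Icc (2 * z' - (z + r)) (2 * y + r - z), g i := ⟨_, rfl⟩
  rw [← hSR, ← hST] at hopt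
  rw [← hST] at l1
  rw [← hSR, ← hSC] at l2
  -- the cardinalities
  obtain ⟨cT, hcT⟩ : ∃ c : ℕ, c = 2 * y + r - z + 1 - (z - r) := ⟨_, rfl⟩
  obtain ⟨cR, hcR⟩ : ∃ c : ℕ, c = 2 * (z - y) := ⟨_, rfl⟩
  obtain ⟨cC, hcC⟩ : ∃ c : ℕ, c = 2 * y + r - z + 1 - (2 * z' - (z + r)) := ⟨_, rfl⟩
  have e1 : z + r + 1 - (z - r) = cT + cR := by omega
  have e2 : z + r + 1 - (2 * z' - (z + r)) = cC + cR := by omega
  have e3 : cC + cR ≤ N + 1 := by omega
  have e4 : 1 ≤ cC := by omega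
  rw [e1] at hopt
  rw [e2] at l2
  rw [← hcT] at l1
  push_cast at hopt l2
  have hsum : g p - v ≤ SC - cC * v := by
    have h1 : g p - v ≤ ∑ i ∈ Icc (2 * z' - (z + r)) (2 * y + r - z), (g i - v) := by
      refine Finset.single_le_sum (f := fun i => g i - v) ?_ (by rw [mem_Icc]; omega)
      intro i hi
      rw [mem_Icc] at hi
      have := hC i (by omega) (by omega)
      show 0 ≤ g i - v
      linarith
    rw [Finset.sum_sub_distrib, Finset.sum_const, Nat.card_Icc, nsmul_eq_mul, ← hSC, ← hcC] at h1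
    exact h1
  have hcT0 : (0 : ℝ) ≤ cT := Nat.cast_nonneg _
  have hcR0 : (0 : ℝ) ≤ cR := Nat.cast_nonneg _
  have hcC0 : (1 : ℝ) ≤ cC := by exact_mod_cast e4
  have hN : (cC : ℝ) + cR ≤ (N : ℝ) + 1 := by exact_mod_cast e3
  have k1 : ST ≤ M z * cT := le_trans l1 (mul_le_mul_of_nonneg_right hMy.le hcT0)
  have k2 : M z * cR ≤ SR := by linarith
  have k3 : v * cR ≤ M z * cR := mul_le_mul_of_nonneg_right hv hcR0
  have k4 : g p - v ≤ (M z' - v) * ((cC : ℝ) + cR) := by linarith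
  have hgp : v ≤ g p := hC p hp1 hp2
  have hmz : 0 ≤ M z' - v := by
    by_contra hneg
    rw [not_le] at hneg
    have : (M z' - v) * ((cC : ℝ) + cR) < 0 := mul_neg_of_neg_of_pos hneg (by linarith)
    linarith
  calc g p - v ≤ (M z' - v) * ((cC : ℝ) + cR) := k4
    _ ≤ (M z' - v) * ((N : ℝ) + 1) := mul_le_mul_of_nonneg_left hN hmz
    _ = ((N : ℝ) + 1) * (M z' - v) := mul_comm _ _

end Pool.Agent.TMX.H24
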