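import Pool.Agent.TMX.Stmts3

/-! Squad TMX, row PEX: existence of good peaks, behaviour at the ends. -/

namespace Pool.Agent.TMX.H24

open Finset
open Pool.Agent.Helper51_Max (I IsMax)
open Pool.Agent.Helper37_EM (var)

/-- row PEX -/
theorem pEx : PEx := by
  classical
  intro hT hE hK N g M hM
  obtain ⟨hL, hR⟩ := hE hT N g M hM
  obtain ⟨-, -, -, hK4⟩ := hK N g M hM
  have hg : ∀ v, v ≤ N → g v ≤ M v := fun v hv => Pool.Agent.Helper37_EM.g_le hM hv
  -- a maximum point of the function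
  obtain ⟨κ, hκ, hκm⟩ := exists_max_image (range (N + 1)) g ⟨0, by simp⟩
  have hκN : κ ≤ N := by
    have := mem_range.1 hκ
    omega
  have hPκ : Pk N g M κ := by
    have h1 : ∀ v, v ≤ N → M v ≤ g κ := fun v hv =>
      hK4 v (g κ) hv fun i hi => hκm i (mem_range.2 (by omega))
    exact ⟨hκN, h1 κ hκN, 0, N, Nat.zero_le _, hκN, le_rfl, Or.inl rfl, Or.inl rfl,
      fun v _ hv => le_trans (h1 v hv) (hg κ hκN)⟩
  obtain ⟨P, hP⟩ : ∃ P : Finset ℕ, P = (range (N + 1)).filter (Pk N g M) := ⟨_, rfl⟩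
  have hmem : ∀ p, Pk N g M p ↔ p ∈ P := by
    intro p
    rw [hP, mem_filter]
    refine ⟨fun h => ⟨mem_range.2 ?_, h⟩, fun h => h.2⟩
    have := h.1
    omega
  have hne : P.Nonempty := ⟨κ, (hmem κ).1 hPκ⟩
  have h1 : Pk N g M (P.min' hne) := (hmem _).2 (P.min'_mem hne)
  have h2 : Pk N g M (P.max' hne) := (hmem _).2 (P.max'_mem hne)
  have hmin : ∀ p, Pk N g M p → P.min' hne ≤ p := fun p hp => P.min'_le p ((hmem p).1 hp)
  have hmax : ∀ p, Pk N g M p → p ≤ P.max' hne := fun p hp => P.le_max' p ((hmem p).1 hp)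
  refine ⟨P.min' hne, P.max' hne, h1, h2, hmin _ h2, ?_, ?_, fun p hp => ⟨hmin p hp, hmax p hp⟩⟩
  · intro i j _ hij hj
    by_contra hlt
    rw [not_le] at hlt
    have hjN : j ≤ N := le_trans hj h1.1
    obtain ⟨x, hx, hxm⟩ := exists_max_image (range (j + 1)) M ⟨0, by simp⟩
    have hx' : x ≤ j := by
      have := mem_range.1 hx
      omega
    have hMx : M j < M x := lt_of_lt_of_le hlt (hxm i (mem_range.2 (by omega)))
    have hxj : x < j := lt_of_le_of_ne hx' fun h => by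
      rw [h] at hMx
      exact lt_irrefl _ hMx
    obtain ⟨q, hq, hgq⟩ := hL x j hxj hjN hMx
    have hqN : q ≤ N := by omega
    have hgM := hg q hqN
    have hMq : M q ≤ M x := hxm q (mem_range.2 (by omega))
    have hPq : Pk N g M q :=
      ⟨hqN, le_trans hMq hgq, 0, j, Nat.zero_le _, hq.le, hjN, Or.inl rfl,
        Or.inr (lt_of_lt_of_le hMx (le_trans hgq hgM)),
        fun v _ hv => le_trans (hxm v (mem_range.2 (by omega))) (le_trans hgq hgM)⟩
    have := hmin q hPq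
    omega
  · intro i j hi hij hj
    by_contra hlt
    rw [not_le] at hlt
    obtain ⟨x, hx, hxm⟩ := exists_max_image (Icc i N) M ⟨i, mem_Icc.2 ⟨le_rfl, by omega⟩⟩
    have hx' := mem_Icc.1 hx
    have hMx : M i < M x := lt_of_lt_of_le hlt (hxm j (mem_Icc.2 ⟨hij, hj⟩))
    have hxi : i < x := lt_of_le_of_ne hx'.1 fun h => by
      rw [← h] at hMx
      exact lt_irrefl _ hMx
    obtain ⟨q, hq, hqN, hgq⟩ := hR x i hxi hx'.2 hMx
    have hgM := hg q hqN
    have hMq : M q ≤ M x := hxm q (mem_Icc.2 ⟨hq.le, hqN⟩)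
    have hPq : Pk N g M q :=
      ⟨hqN, le_trans hMq hgq, i, N, hq.le, hqN, le_rfl,
        Or.inr (lt_of_lt_of_le hMx (le_trans hgq hgM)), Or.inl rfl,
        fun v hv hv' => le_trans (hxm v (mem_Icc.2 ⟨hv, hv'⟩)) (le_trans hgq hgM)⟩
    have := hmax q hPq
    omega

end Pool.Agent.TMX.H24
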